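import Pool.Agent.H94.QC.K3

set_option autoImplicit false

open Filter Topology

namespace Pool.Agent.H94.QC

open Pool.Agent.H95.QC

variable {M : ℕ}

/-- first coordinate, smallest representative -/
def uu (x : Tor M) : ℤ := x.1.valMinAbs

theorem vma_add [NeZero M] {a : ZMod M} {k : ℕ} (ha : |a.valMinAbs| ≤ k) (hk : 2 * (k + 1) < M)
    {e : ℤ} (he : |e| ≤ 1) : (a + (e : ZMod M)).valMinAbs = a.valMinAbs + e := by
  rw [ZMod.valMinAbs_spec]
  constructor
  · push_cast
    rfl
  · rw [abs_le] at ha he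
    constructor
    · have : (2 * ((k : ℤ) + 1)) < M := by exact_mod_cast hk
      linarith [ha.1, he.1]
    · have : (2 * ((k : ℤ) + 1)) < M := by exact_mod_cast hk
      linarith [ha.2, he.2]

theorem uu_p [NeZero M] {a : ZMod M} {k : ℕ} (ha : |a.valMinAbs| ≤ k) (hk : 2 * (k + 1) < M) :
    (a + 1).valMinAbs = a.valMinAbs + 1 := by
  have := vma_add ha hk (e := 1) (by norm_num)
  simpa using this

theorem uu_m [NeZero M] {a : ZMod M} {k : ℕ} (ha : |a.valMinAbs| ≤ k) (hk : 2 * (k + 1) < M) :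
    (a + -1).valMinAbs = a.valMinAbs - 1 := by
  have := vma_add ha hk (e := -1) (by norm_num)
  push_cast at this
  rw [this]
  ring

/-- support in `|u| ≤ k` -/
def Sup (k : ℕ) (f : Tor M → ℝ) : Prop := ∀ x, f x ≠ 0 → |uu x| ≤ k

theorem gen [NeZero M] {f : Tor M → ℝ} {k : ℕ} (hf : Sup k f) (hk : 2 * (k + 1) < M)
    (m g : ℤ → ℝ) :
    ∑ x, step (st M) (fun x => m (uu x)) f x * g (uu x) =
      ∑ y, f y * ((m (uu y + 1) * g (uu y + 1) + m (uu y - 1) * g (uu y - 1)) / 2) := by
  rw [sum_step]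
  refine Finset.sum_congr rfl fun y _ => ?_
  by_cases hy : f y = 0
  · rw [hy]; simp
  · have h1 := hf y hy
    congr 1
    rw [Fin.sum_univ_four]
    simp only [st, Matrix.cons_val_zero, Matrix.cons_val_one, Matrix.cons_val, uu, Prod.fst_add]
    unfold uu at h1
    rw [uu_p h1 hk, uu_m h1 hk]
    ring

theorem abs_uu_step [NeZero M] (y : Tor M) (i : Fin 4) : |uu (y + st M i)| ≤ |uu y| + 1 := by
  have h1 : uu (y + st M i) ^ 2 ≤ (|uu y| + 1) ^ 2 := by
    have e1 := vma_sq_le y.1 1
    have e2 := vma_sq_le y.1 (-1)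
    push_cast at e1 e2
    have e3 : (y.1.valMinAbs + 1) ^ 2 ≤ (|y.1.valMinAbs| + 1) ^ 2 := by
      have := le_abs_self y.1.valMinAbs
      nlinarith [sq_abs y.1.valMinAbs]
    have e4 : (y.1.valMinAbs + -1) ^ 2 ≤ (|y.1.valMinAbs| + 1) ^ 2 := by
      have := neg_abs_le y.1.valMinAbs
      nlinarith [sq_abs y.1.valMinAbs]
    fin_cases i <;> simp [st, uu] <;> linarith
  have h2 := sq_le_sq.1 h1
  rwa [abs_of_nonneg (a := |uu y| + 1) (by positivity)] at h2

theorem Sup.step [NeZero M] {f : Tor M → ℝ} {k : ℕ} (hf : Sup k f) (a : Tor M → ℝ) :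
    Sup (k + 1) (step (st M) a f) := by
  intro x hx
  unfold Pool.Agent.H95.QC.step at hx
  have h1 : (∑ i, f (x - st M i)) ≠ 0 := by
    intro h
    rw [h] at hx
    simp at hx
  obtain ⟨i, -, hi⟩ := Finset.exists_ne_zero_of_sum_ne_zero h1
  have h2 := hf _ hi
  have h3 := abs_uu_step (x - st M i) i
  rw [sub_add_cancel] at h3
  push_cast
  linarith

/-- moments of the free walk -/
theorem q_facts [NeZero M] (n : ℕ) (hn : 2 * n < M) :
    (∀ x, 0 ≤ q M n x) ∧ Sup n (q M n) ∧ ∑ x, q M n x = 1 ∧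
    ∑ x, q M n x * (uu x : ℝ) = 0 ∧ ∑ x, q M n x * (uu x : ℝ) ^ 2 = n ∧
    ∑ x, q M n x * (uu x : ℝ) ^ 4 ≤ 3 * (n : ℝ) ^ 2 := by
  induction n with
  | zero =>
    have h0 : uu (0 : Tor M) = 0 := by simp [uu]
    have h1 : ∀ g : Tor M → ℝ, ∑ x, q M 0 x * g x = g 0 := by
      intro g
      simp [q, dl, Pi.single_apply]
    refine ⟨?_, ?_, ?_, ?_, ?_, ?_⟩
    · intro x
      simp only [q, dl, Function.iterate_zero, id, Pi.single_apply]
      split_ifs <;> norm_num
    · intro x hx
      simp only [q, dl, Function.iterate_zero, id, Pi.single_apply] at hx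
      have : x = 0 := by
        by_contra h
        simp [h] at hx
      rw [this, h0]
      simp
    · have := h1 1
      simpa using this
    · rw [h1]; simp [h0]
    · rw [h1]; simp [h0]
    · rw [h1]; simp [h0]
  | succ n ih =>
    obtain ⟨i0, i1, i2, i3, i4, i5⟩ := ih (by omega)
    have hk : 2 * (n + 1) < M := hn
    have hq : q M (n + 1) = step (st M) (fun x => (fun _ : ℤ => (1:ℝ)) (uu x)) (q M n) := by
      unfold q
      rw [Function.iterate_succ_apply']
      rfl
    have hg := fun g : ℤ → ℝ => gen i1 hk (fun _ => 1) g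
    refine ⟨?_, ?_, ?_, ?_, ?_, ?_⟩
    · rw [hq]; exact fun x => step_nonneg i0 x
    · rw [hq]; exact i1.step _
    · rw [hq]
      have := hg (fun _ => 1)
      simp only [mul_one] at this
      rw [this]
      simp only [one_add_one_eq_two, div_self (two_ne_zero (α := ℝ)), mul_one]
      exact i2
    · rw [hq]
      have := hg (fun k => (k : ℝ))
      simp only [one_mul] at this
      rw [this, ← i3]
      refine Finset.sum_congr rfl fun y _ => ?_
      push_cast
      ring
    · rw [hq]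
      have := hg (fun k => (k : ℝ) ^ 2)
      simp only [one_mul] at this
      rw [this]
      have e : ∀ y : Tor M, q M n y * ((((uu y + 1 : ℤ) : ℝ) ^ 2 + ((uu y - 1 : ℤ) : ℝ) ^ 2) / 2) =
          q M n y * (uu y : ℝ) ^ 2 + q M n y := by
        intro y; push_cast; ring
      simp_rw [e]
      rw [Finset.sum_add_distrib, i4, i2]
      push_cast
      ring
    · rw [hq]
      have := hg (fun k => (k : ℝ) ^ 4)
      simp only [one_mul] at this
      rw [this]
      have e : ∀ y : Tor M, q M n y * ((((uu y + 1 : ℤ) : ℝ) ^ 4 + ((uu y - 1 : ℤ) : ℝ) ^ 4) / 2) =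
          q M n y * (uu y : ℝ) ^ 4 + 6 * (q M n y * (uu y : ℝ) ^ 2) + q M n y := by
        intro y; push_cast; ring
      simp_rw [e]
      rw [Finset.sum_add_distrib, Finset.sum_add_distrib, ← Finset.mul_sum, i4, i2]
      push_cast
      nlinarith

/-- lower bound of the first absolute moment -/
theorem abs_moment [NeZero M] (n : ℕ) (hn1 : 1 ≤ n) (hn : 2 * n < M) :
    Real.sqrt n / 2 ≤ ∑ x, q M n x * |(uu x : ℝ)| := by
  obtain ⟨h0, -, h1, -, h2, h4⟩ := q_facts n hn
  have hn' : (0:ℝ) < n := by exact_mod_cast hn1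
  set r := Real.sqrt n with hr
  have hr0 : 0 < r := Real.sqrt_pos.2 hn'
  have hrr : r ^ 2 = n := Real.sq_sqrt hn'.le
  -- s² ≤ r s + s⁴ / (6 n)
  have key : ∀ s : ℝ, 0 ≤ s → s ^ 2 ≤ r * s + s ^ 4 / (6 * n) := by
    intro s hs
    rw [← hrr, ← sub_nonneg]
    have : r * s + s ^ 4 / (6 * r ^ 2) - s ^ 2 = s * (6 * r ^ 3 + s ^ 3 - 6 * r ^ 2 * s) / (6 * r ^ 2) := by
      field_simp
    rw [this]
    refine div_nonneg (mul_nonneg hs ?_) (by positivity)
    nlinarith [mul_nonneg hs (sq_nonneg (s - 3 / 2 * r)), mul_nonneg hr0.le (sq_nonneg (s - 3 / 2 * r)),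
      sq_nonneg (s - 3/2 * r), mul_nonneg hs (sq_nonneg (s - r)), mul_nonneg hr0.le (sq_nonneg (s - r)),
      mul_nonneg hs (sq_nonneg r), pow_pos hr0 3]
  have h5 : ∑ x, q M n x * (uu x : ℝ) ^ 2 ≤ r * (∑ x, q M n x * |(uu x : ℝ)|) +
      (∑ x, q M n x * (uu x : ℝ) ^ 4) / (6 * n) := by
    rw [Finset.mul_sum, Finset.sum_div, ← Finset.sum_add_distrib]
    refine Finset.sum_le_sum fun x _ => ?_
    have := mul_le_mul_of_nonneg_left (key |(uu x : ℝ)| (abs_nonneg _)) (h0 x)
    rw [sq_abs, show |(uu x : ℝ)| ^ 4 = (uu x : ℝ) ^ 4 by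
      rw [← abs_pow]; exact abs_of_nonneg (by positivity)] at this
    calc _ ≤ _ := this
      _ = _ := by ring
  rw [h2] at h5
  have h6 : (∑ x, q M n x * (uu x : ℝ) ^ 4) / (6 * n) ≤ n / 2 := by
    rw [div_le_iff₀ (by positivity)]
    nlinarith
  have h7 : r * (r / 2) ≤ r * ∑ x, q M n x * |(uu x : ℝ)| := by nlinarith
  exact le_of_mul_le_mul_left h7 hr0

/-- mask of a half line -/
noncomputable def mk (s : ℤ) (k : ℤ) : ℝ := if 0 < s * k then 1 else 0

theorem mk_nonneg (s k : ℤ) : 0 ≤ mk s k := by unfold mk; split_ifs <;> norm_num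
theorem mk_le_one (s k : ℤ) : mk s k ≤ 1 := by unfold mk; split_ifs <;> norm_num

theorem mk_mul {s k : ℤ} (h : 0 ≤ s * k) : mk s k * ((s : ℝ) * k) = (s : ℝ) * k := by
  unfold mk
  split_ifs with h1
  · rw [one_mul]
  · have : s * k = 0 := by omega
    have h2 : (s : ℝ) * k = 0 := by exact_mod_cast this
    rw [h2]; simp

theorem mk_mul_abs {s k : ℤ} (hs : s = 1 ∨ s = -1) :
    mk s k * ((s : ℝ) * k) = (|(k : ℝ)| + s * k) / 2 := by
  unfold mk
  rcases hs with rfl | rfl
  · split_ifs with h1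
    · have : (0:ℝ) < k := by exact_mod_cast (by simpa using h1 : 0 < k)
      rw [abs_of_pos this]; push_cast; ring
    · have : (k : ℝ) ≤ 0 := by exact_mod_cast (by simpa using h1 : k ≤ 0)
      rw [abs_of_nonpos this]; push_cast; ring
  · split_ifs with h1
    · have : (k : ℝ) < 0 := by exact_mod_cast (by omega : k < 0)
      rw [abs_of_neg this]; push_cast; ring
    · have : (0:ℝ) ≤ k := by exact_mod_cast (by omega : 0 ≤ k)
      rw [abs_of_nonneg this]; push_cast; ring

/-- the killed walk -/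
noncomputable def kf (M : ℕ) (s : ℤ) (n t : ℕ) : Tor M → ℝ :=
  (step (st M) (fun x => mk s (uu x)))^[t] (fun y => mk s (uu y) * q M n y)

theorem kf_facts [NeZero M] {s : ℤ} (hs : s = 1 ∨ s = -1) (n t : ℕ) (hn : 2 * (n + t) < M) :
    (∀ x, 0 ≤ kf M s n t x) ∧ Sup (n + t) (kf M s n t) ∧
    (∀ x, kf M s n t x ≠ 0 → 0 < s * uu x) ∧
    ∑ x, kf M s n t x * ((s : ℝ) * uu x) = (∑ x, q M n x * |(uu x : ℝ)|) / 2 ∧
    ∑ x, kf M s n t x ≤ 1 ∧ ∑ x, kf M s n t x * (uu x : ℝ) ^ 2 ≤ n + t := by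
  have hs2 : s * s = 1 := by rcases hs with rfl | rfl <;> norm_num
  induction t with
  | zero =>
    obtain ⟨h0, h1, h2, h3, h4, -⟩ := q_facts (M := M) n (by omega)
    have e : ∀ x, kf M s n 0 x = mk s (uu x) * q M n x := fun x => rfl
    refine ⟨fun x => ?_, ?_, ?_, ?_, ?_, ?_⟩
    · rw [e]; exact mul_nonneg (mk_nonneg _ _) (h0 x)
    · intro x hx
      rw [e] at hx
      have := h1 x (right_ne_zero_of_mul hx)
      simpa using this
    · intro x hx
      rw [e] at hx
      have := left_ne_zero_of_mul hx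
      unfold mk at this
      by_contra h
      rw [if_neg h] at this
      exact this rfl
    · have : ∀ x, kf M s n 0 x * ((s : ℝ) * uu x) =
          (q M n x * |(uu x : ℝ)|) / 2 + (s : ℝ) / 2 * (q M n x * (uu x : ℝ)) := by
        intro x
        have := mk_mul_abs (k := uu x) hs
        rw [e]
        calc mk s (uu x) * q M n x * ((s : ℝ) * uu x) =
            q M n x * (mk s (uu x) * ((s : ℝ) * uu x)) := by ring
          _ = _ := by rw [this]; ring
      simp_rw [this]
      rw [Finset.sum_add_distrib, ← Finset.mul_sum, h3, ← Finset.sum_div]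
      ring
    · rw [← h2]
      refine Finset.sum_le_sum fun x _ => ?_
      rw [e]
      exact mul_le_of_le_one_left (h0 x) (mk_le_one _ _)
    · push_cast
      rw [add_zero, ← h4]
      refine Finset.sum_le_sum fun x _ => ?_
      rw [e]
      exact mul_le_mul_of_nonneg_right (mul_le_of_le_one_left (h0 x) (mk_le_one _ _)) (sq_nonneg _)
  | succ t ih =>
    obtain ⟨h0, h1, h2, h3, h4, h5⟩ := ih (by omega)
    have e : kf M s n (t + 1) = step (st M) (fun x => mk s (uu x)) (kf M s n t) := by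
      unfold kf
      rw [Function.iterate_succ_apply']
    have hk : 2 * (n + t + 1) < M := by omega
    have hg := fun g : ℤ → ℝ => gen h1 hk (mk s) g
    refine ⟨fun x => ?_, ?_, ?_, ?_, ?_, ?_⟩
    · rw [e]
      unfold step
      exact mul_nonneg (mk_nonneg _ _) (div_nonneg (Finset.sum_nonneg fun i _ => h0 _) (by norm_num))
    · rw [e]; exact h1.step _
    · intro x hx
      rw [e] at hx
      unfold step at hx
      have : mk s (uu x) ≠ 0 := left_ne_zero_of_mul hx
      unfold mk at this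
      by_contra h
      rw [if_neg h] at this
      exact this rfl
    · rw [e, hg (fun k => (s : ℝ) * k), ← h3]
      refine Finset.sum_congr rfl fun y _ => ?_
      by_cases hy : kf M s n t y = 0
      · rw [hy]; simp
      · have h6 := h2 y hy
        have e1 : 0 ≤ s * (uu y + 1) := by
          rcases hs with rfl | rfl <;> omega
        have e2 : 0 ≤ s * (uu y - 1) := by
          rcases hs with rfl | rfl <;> omega
        rw [mk_mul e1, mk_mul e2]
        push_cast
        ring
    · have := hg (fun _ => 1)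
      simp only [mul_one] at this
      rw [e, this]
      refine le_trans (Finset.sum_le_sum fun y _ => ?_) h4
      have a1 := mk_le_one s (uu y + 1)
      have a2 := mk_le_one s (uu y - 1)
      exact mul_le_of_le_one_right (h0 y) (by linarith)
    · rw [e, hg (fun k => (k : ℝ) ^ 2)]
      have : ∑ y, kf M s n t y * ((mk s (uu y + 1) * ((uu y + 1 : ℤ) : ℝ) ^ 2 +
          mk s (uu y - 1) * ((uu y - 1 : ℤ) : ℝ) ^ 2) / 2) ≤
          ∑ y, (kf M s n t y * (uu y : ℝ) ^ 2 + kf M s n t y) := by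
        refine Finset.sum_le_sum fun y _ => ?_
        have a1 := mul_le_mul_of_nonneg_right (mk_le_one s (uu y + 1))
          (sq_nonneg ((uu y + 1 : ℤ) : ℝ))
        have a2 := mul_le_mul_of_nonneg_right (mk_le_one s (uu y - 1))
          (sq_nonneg ((uu y - 1 : ℤ) : ℝ))
        have a3 : (mk s (uu y + 1) * ((uu y + 1 : ℤ) : ℝ) ^ 2 +
          mk s (uu y - 1) * ((uu y - 1 : ℤ) : ℝ) ^ 2) / 2 ≤ (uu y : ℝ) ^ 2 + 1 := by
          push_cast at a1 a2 ⊢
          nlinarith
        have := mul_le_mul_of_nonneg_left a3 (h0 y)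
        linarith
      refine this.trans ?_
      rw [Finset.sum_add_distrib]
      push_cast
      linarith

theorem kf_lower [NeZero M] {s : ℤ} (hs : s = 1 ∨ s = -1) (n T : ℕ) (hn1 : 1 ≤ n)
    (hn : 2 * (n + T) < M) : 1 / 16 * ((n : ℝ) / (n + T)) ≤ ∑ x, kf M s n T x := by
  obtain ⟨h0, -, -, h3, -, h5⟩ := kf_facts hs n T hn
  have hA := abs_moment (M := M) n hn1 (by omega)
  have hs2 : (s : ℝ) ^ 2 = 1 := by rcases hs with rfl | rfl <;> norm_num
  have hn' : (0:ℝ) < n := by exact_mod_cast hn1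
  have hcs := Finset.sum_sq_le_sum_mul_sum_of_sq_le_mul (Finset.univ : Finset (Tor M))
    (r := fun x => kf M s n T x * ((s : ℝ) * uu x)) (f := kf M s n T)
    (g := fun x => kf M s n T x * (uu x : ℝ) ^ 2) (fun x _ => h0 x)
    (fun x _ => mul_nonneg (h0 x) (sq_nonneg _)) (fun x _ => le_of_eq <| by
      calc (kf M s n T x * ((s : ℝ) * uu x)) ^ 2 =
          (s : ℝ) ^ 2 * (kf M s n T x * (kf M s n T x * (uu x : ℝ) ^ 2)) := by ring
        _ = _ := by rw [hs2, one_mul])
  rw [h3] at hcs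
  have hS : 0 ≤ ∑ x, kf M s n T x := Finset.sum_nonneg fun x _ => h0 x
  have h6 : (n : ℝ) / 16 ≤ (∑ x, kf M s n T x) * (n + T) := by
    have h7 : (Real.sqrt n / 4) ^ 2 ≤ ((∑ x, q M n x * |(uu x : ℝ)|) / 2) ^ 2 := by
      apply pow_le_pow_left₀ (by positivity)
      linarith
    have h8 : (Real.sqrt n / 4) ^ 2 = (n : ℝ) / 16 := by
      rw [div_pow, Real.sq_sqrt hn'.le]; norm_num
    rw [h8] at h7
    exact h7.trans (hcs.trans (mul_le_mul_of_nonneg_left h5 hS))
  have hnT : (0:ℝ) < n + T := by positivity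
  rw [mul_div_assoc', div_le_iff₀ hnT]
  linarith

theorem targetK4 : TargetK4 := by
  refine ⟨1 / 16, by norm_num, fun M n T _ hn1 hn => ⟨?_, ?_⟩⟩
  · have h := kf_lower (M := M) (s := 1) (Or.inl rfl) n T hn1 hn
    have e : (fun x : Tor M => mk 1 (uu x)) = hp M := by
      funext x
      unfold mk hp uu
      rw [one_mul]
    unfold kf at h
    rw [e] at h
    have e' : (fun y : Tor M => mk 1 (uu y) * q M n y) = fun y => hp M y * q M n y := by
      rw [← e]
    rw [e'] at h
    exact h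
  · have h := kf_lower (M := M) (s := -1) (Or.inr rfl) n T hn1 hn
    have e : (fun x : Tor M => mk (-1) (uu x)) = hm M := by
      funext x
      unfold mk hm uu
      congr 1
      rw [eq_iff_iff]
      constructor <;> intro h <;> omega
    unfold kf at h
    rw [e] at h
    have e' : (fun y : Tor M => mk (-1) (uu y) * q M n y) = fun y => hm M y * q M n y := by
      rw [← e]
    rw [e'] at h
    exact h

end Pool.Agent.H94.QC
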