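import Pool.Agent.H95.QC.Targets

set_option autoImplicit false

open Filter Topology

namespace Pool.Agent.H94.QC

open Pool.Agent.H95.QC

variable {M : ℕ}

theorem sum_step (a f φ : Tor M → ℝ) [NeZero M] :
    ∑ x, step (st M) a f x * φ x =
      ∑ y, f y * ((∑ i, a (y + st M i) * φ (y + st M i)) / 4) := by
  unfold step
  have h1 : ∀ x, a x * ((∑ i, f (x - st M i)) / 4) * φ x =
      ∑ i, (f (x - st M i) * (a x * φ x)) / 4 := by
    intro x
    rw [← Finset.sum_div, ← Finset.sum_mul]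
    ring
  simp_rw [h1]
  rw [Finset.sum_comm]
  have h2 : ∀ i : Fin 4, ∑ x, (f (x - st M i) * (a x * φ x)) / 4 =
      ∑ y, (f y * (a (y + st M i) * φ (y + st M i))) / 4 := by
    intro i
    rw [← Equiv.sum_comp (Equiv.addRight (st M i))]
    simp
  simp_rw [h2]
  rw [Finset.sum_comm]
  refine Finset.sum_congr rfl fun y _ => ?_
  rw [← Finset.sum_div, ← Finset.mul_sum]
  ring

/-- adding a representative cannot increase the minimal absolute value beyond it -/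
theorem vma_sq_le [NeZero M] (a : ZMod M) (e : ℤ) :
    (a + (e : ZMod M)).valMinAbs ^ 2 ≤ (a.valMinAbs + e) ^ 2 := by
  rw [← Int.natAbs_le_iff_sq_le]
  refine ZMod.natAbs_min_of_le_div_two M _ _ ?_ (ZMod.natAbs_valMinAbs_le _)
  push_cast
  rfl

theorem vma_sq_le_real [NeZero M] (a : ZMod M) (e : ℤ) :
    ((a + (e : ZMod M)).valMinAbs : ℝ) ^ 2 ≤ ((a.valMinAbs : ℝ) + e) ^ 2 := by
  exact_mod_cast vma_sq_le a e

theorem vma_p_two [NeZero M] (a : ZMod M) :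
    ((a + 1).valMinAbs : ℝ) ^ 2 ≤ ((a.valMinAbs : ℝ) + 1) ^ 2 := by
  have := vma_sq_le_real a 1
  simpa using this

theorem vma_m_two [NeZero M] (a : ZMod M) :
    ((a + -1).valMinAbs : ℝ) ^ 2 ≤ ((a.valMinAbs : ℝ) - 1) ^ 2 := by
  have := vma_sq_le_real a (-1)
  push_cast at this
  rw [← sub_eq_add_neg ((a.valMinAbs : ℝ))] at this
  exact this

theorem vma_p_four [NeZero M] (a : ZMod M) :
    ((a + 1).valMinAbs : ℝ) ^ 4 ≤ ((a.valMinAbs : ℝ) + 1) ^ 4 := by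
  have := pow_le_pow_left₀ (sq_nonneg _) (vma_p_two a) 2
  nlinarith

theorem vma_m_four [NeZero M] (a : ZMod M) :
    ((a + -1).valMinAbs : ℝ) ^ 4 ≤ ((a.valMinAbs : ℝ) - 1) ^ 4 := by
  have := pow_le_pow_left₀ (sq_nonneg _) (vma_m_two a) 2
  nlinarith

theorem avg_nrm2 [NeZero M] (y : Tor M) :
    (∑ i, (1 : Tor M → ℝ) (y + st M i) * nrm2 (y + st M i)) / 4 ≤ nrm2 y + 2 := by
  rw [Fin.sum_univ_four]
  simp only [Pi.one_apply, one_mul, nrm2, st, Matrix.cons_val_zero, Matrix.cons_val_one,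
    Matrix.cons_val, Prod.fst_add, Prod.snd_add]
  have a1 := vma_p_two y.1
  have a2 := vma_m_two y.1
  have b1 := vma_p_two y.2
  have b2 := vma_m_two y.2
  nlinarith

theorem avg_nrm4 [NeZero M] (y : Tor M) :
    (∑ i, (1 : Tor M → ℝ) (y + st M i) * nrm4 (y + st M i)) / 4 ≤
      nrm4 y + 6 * nrm2 y + 2 := by
  rw [Fin.sum_univ_four]
  simp only [Pi.one_apply, one_mul, nrm2, nrm4, st, Matrix.cons_val_zero, Matrix.cons_val_one,
    Matrix.cons_val, Prod.fst_add, Prod.snd_add]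
  have a1 := vma_p_four y.1
  have a2 := vma_m_four y.1
  have b1 := vma_p_four y.2
  have b2 := vma_m_four y.2
  have e1 : ∀ t : ℝ, (t + 1) ^ 4 + (t - 1) ^ 4 = 2 * t ^ 4 + 12 * t ^ 2 + 2 := fun t => by ring
  have h1 := e1 (y.1.valMinAbs : ℝ)
  have h2 := e1 (y.2.valMinAbs : ℝ)
  linarith

theorem step_nonneg [NeZero M] {f : Tor M → ℝ} (hf : ∀ x, 0 ≤ f x) (x : Tor M) :
    0 ≤ step (st M) 1 f x := by
  unfold step
  simp only [Pi.one_apply, one_mul]
  exact div_nonneg (Finset.sum_nonneg fun i _ => hf _) (by norm_num)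

theorem sum_step_one [NeZero M] (f : Tor M → ℝ) : ∑ x, step (st M) 1 f x = ∑ x, f x := by
  have := sum_step (1 : Tor M → ℝ) f 1
  simpa using this

theorem iter_facts [NeZero M] (F : Tor M → ℝ) (hF : ∀ x, 0 ≤ F x) (n : ℕ) :
    (∀ x, 0 ≤ (step (st M) 1)^[n] F x) ∧ ∑ x, (step (st M) 1)^[n] F x = ∑ x, F x ∧
    ∑ x, (step (st M) 1)^[n] F x * nrm2 x ≤ ∑ x, F x * nrm2 x + 2 * (n : ℝ) * ∑ x, F x ∧
    ∑ x, (step (st M) 1)^[n] F x * nrm4 x ≤ ∑ x, F x * nrm4 x +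
      6 * (n : ℝ) * (∑ x, F x * nrm2 x) + 6 * (n : ℝ) ^ 2 * ∑ x, F x := by
  induction n with
  | zero => simp [hF]
  | succ n ih =>
    obtain ⟨h0, h1, h2, h4⟩ := ih
    rw [Function.iterate_succ_apply']
    set G := (step (st M) 1)^[n] F
    have hm0 : 0 ≤ ∑ x, F x := Finset.sum_nonneg fun x _ => hF x
    refine ⟨fun x => step_nonneg h0 x, by rw [sum_step_one, h1], ?_, ?_⟩
    · rw [sum_step]
      have : ∑ y, G y * ((∑ i, (1 : Tor M → ℝ) (y + st M i) * nrm2 (y + st M i)) / 4) ≤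
          ∑ y, G y * (nrm2 y + 2) :=
        Finset.sum_le_sum fun y _ => mul_le_mul_of_nonneg_left (avg_nrm2 y) (h0 y)
      refine this.trans ?_
      simp_rw [mul_add]
      rw [Finset.sum_add_distrib, ← Finset.sum_mul, h1]
      push_cast
      linarith
    · rw [sum_step]
      have : ∑ y, G y * ((∑ i, (1 : Tor M → ℝ) (y + st M i) * nrm4 (y + st M i)) / 4) ≤
          ∑ y, G y * (nrm4 y + 6 * nrm2 y + 2) :=
        Finset.sum_le_sum fun y _ => mul_le_mul_of_nonneg_left (avg_nrm4 y) (h0 y)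
      refine this.trans ?_
      have e : ∀ y, G y * (nrm4 y + 6 * nrm2 y + 2) = G y * nrm4 y + 6 * (G y * nrm2 y) + G y * 2 :=
        fun y => by ring
      simp_rw [e]
      rw [Finset.sum_add_distrib, Finset.sum_add_distrib, ← Finset.sum_mul, ← Finset.mul_sum, h1]
      push_cast
      nlinarith

theorem targetK3 : TargetK3 := by
  intro M n _ F hF
  obtain ⟨-, -, -, h4⟩ := iter_facts F hF n
  refine h4.trans ?_
  have key : ∀ x, 6 * (n : ℝ) * (F x * nrm2 x) ≤ F x * nrm4 x + 18 * (n : ℝ) ^ 2 * F x := by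
    intro x
    have h1 : 6 * (n : ℝ) * nrm2 x ≤ nrm4 x + 18 * (n : ℝ) ^ 2 := by
      unfold nrm2 nrm4
      nlinarith [sq_nonneg ((x.1.valMinAbs : ℝ) ^ 2 - 3 * n), sq_nonneg ((x.2.valMinAbs : ℝ) ^ 2 - 3 * n)]
    nlinarith [mul_le_mul_of_nonneg_left h1 (hF x)]
  have h5 : 6 * (n : ℝ) * ∑ x, F x * nrm2 x ≤ ∑ x, F x * nrm4 x + 18 * (n : ℝ) ^ 2 * ∑ x, F x := by
    rw [Finset.mul_sum, Finset.mul_sum, ← Finset.sum_add_distrib]
    exact Finset.sum_le_sum fun x _ => key x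
  linarith

end Pool.Agent.H94.QC
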